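import Pool.Agent.J6H58.MC.Stm2
import Pool.Agent.J6H40.BC.Fix
import Pool.Agent.J6H48.BC.B3

/-!
# The theory is true in an expansion of the standard model

The first part is the proof of `Pool/Agent/J6H77/BC/True.lean`, for more relations.
-/

set_option autoImplicit false

namespace Pool.Agent.J6H75.MC

open Pool.Agent.TH672 (Fm Str upd varStr num digits LogK ReplK Sw Pv upd_self upd_same upd_ne
  upd_comm)
open Pool.Agent.TH636.BC (Fml Step IsProof str strs Proves code blk inst robinson Arith PrRel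
  lt col Ef Cf TE hd bs tl appn Erel Crel)
open Pool.Agent.TH197.J1545 (code_inj sat_proves num_snoc num_app digits_zero digits_odd
  digits_even digits_num)
open Pool.Agent.TH838.J1549 (Q exists_Q sat_inst free_inst)
open Pool.Agent.J6H49.BC (WB XX U0 hi expansion stdR erel_zero erel_succ crel_zero crel_odd crel_even)
open Pool.Agent.J6H58.MC

/-- the expansion of the standard model -/
abbrev NN : Str ℕ := expansion stdQ

/-- the standard model as a structure of Robinson arithmetic with functions -/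
def qN : Q NN where
  o := (0 : ℕ)
  s := fun x : ℕ => x + 1
  a := fun x y : ℕ => x + y
  m := fun x y : ℕ => x * y
  zero_iff := fun _ => Iff.rfl
  succ_iff := fun _ _ => Iff.rfl
  add_iff := fun _ _ _ => Iff.rfl
  mul_iff := fun _ _ _ => Iff.rfl
  s_ne := fun x => Nat.succ_ne_zero x
  s_inj := fun x y h => Nat.succ.inj h
  cases := fun x => by
    have h : ∀ x : ℕ, x = 0 ∨ ∃ y, x = y + 1 := fun x => by
      cases x with
      | zero => exact .inl rfl
      | succ n => exact .inr ⟨n, rfl⟩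
    exact h x
  a_o := fun x => Nat.add_zero x
  a_s := fun x y => (Nat.add_assoc x y 1).symm
  m_o := fun x => Nat.mul_zero x
  m_s := fun x y => Nat.mul_succ x y

theorem qN_nm (n : ℕ) : qN.nm n = n := by
  induction n with
  | zero => rfl
  | succ n ih =>
    change qN.nm n + 1 = n + 1
    rw [ih]

theorem sat_instN {φ : Fml} {x : ℕ} (hx : 2 ≤ x) (h0 : ¬ φ.Free 0) (h1 : ¬ φ.Free 1)
    (n : ℕ) (v : ℕ → ℕ) : Fm.Sat NN (inst x n φ) v ↔ Fm.Sat NN φ (upd v x n) := by
  rw [sat_inst qN hx h0 h1, qN_nm]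

theorem sat_appnN (σ : List Bool) {ψ : Fml} (h0 : ¬ ψ.Free 0) (h1 : ¬ ψ.Free 1) (v : ℕ → ℕ) :
    Fm.Sat NN (appn σ ψ) v ↔ Fm.Sat NN ψ (upd (upd (upd (upd v 21 (2 ^ σ.length)) 23
      (num σ)) 25 (2 ^ σ.length * v 17)) 27 (2 ^ σ.length * v 17 + num σ)) := by
  rw [J6H40.BC.sat_appn qN σ h0 h1 v (v 17) (qN_nm _).symm, qN_nm, qN_nm, qN_nm, qN_nm]

theorem robN : ∀ φ ∈ robinson, ∀ v : ℕ → ℕ, Fm.Sat NN φ v := by
  intro φ hφ v
  simp only [robinson, List.mem_cons, List.not_mem_nil, or_false] at hφ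
  rcases hφ with rfl | rfl | rfl | rfl | rfl | rfl | rfl | rfl | rfl | rfl | rfl | rfl | rfl | rfl | rfl
  · rw [Fm.sat_ex]
    exact ⟨0, rfl⟩
  · intro (a : ℕ) (b : ℕ) h1 h2
    exact (show a = 0 from h1).trans (show b = 0 from h2).symm
  · intro (a : ℕ)
    rw [Fm.sat_ex]
    exact ⟨a + 1, rfl⟩
  · intro (a : ℕ) (b : ℕ) (c : ℕ) h1 h2
    exact (show b = a + 1 from h1).trans (show c = a + 1 from h2).symm
  · intro (a : ℕ) (b : ℕ)
    rw [Fm.sat_ex]
    exact ⟨a + b, rfl⟩
  · intro (a : ℕ) (b : ℕ) (c : ℕ) (d : ℕ) h1 h2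
    exact (show c = a + b from h1).trans (show d = a + b from h2).symm
  · intro (a : ℕ) (b : ℕ)
    rw [Fm.sat_ex]
    exact ⟨a * b, rfl⟩
  · intro (a : ℕ) (b : ℕ) (c : ℕ) (d : ℕ) h1 h2
    exact (show c = a * b from h1).trans (show d = a * b from h2).symm
  · intro (a : ℕ) (b : ℕ) h1 h2
    exact absurd ((show b = a + 1 from h1).symm.trans (show b = 0 from h2)) (Nat.succ_ne_zero a)
  · intro (a : ℕ) (b : ℕ) (c : ℕ) h1 h2
    exact Nat.succ.inj ((show c = a + 1 from h1).symm.trans (show c = b + 1 from h2))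
  · intro (a : ℕ)
    rw [Fm.sat_or, Fm.sat_ex]
    have h : ∀ a : ℕ, a = 0 ∨ ∃ y, a = y + 1 := fun a => by
      cases a with
      | zero => exact .inl rfl
      | succ n => exact .inr ⟨n, rfl⟩
    exact h a
  · intro (a : ℕ) (b : ℕ) h1
    have h1' : b = 0 := h1
    change a = a + b
    omega
  · intro (a : ℕ) (b : ℕ) (c : ℕ) (d : ℕ) (e : ℕ) h1 h2 h3
    have h1' : c = b + 1 := h1
    have h2' : d = a + b := h2
    have h3' : e = d + 1 := h3
    change e = a + c
    omega
  · intro (a : ℕ) (b : ℕ) h1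
    have h1' : b = 0 := h1
    change b = a * b
    rw [h1', Nat.mul_zero]
  · intro (a : ℕ) (b : ℕ) (c : ℕ) (d : ℕ) (e : ℕ) h1 h2 h3
    have h1' : c = b + 1 := h1
    have h2' : d = a * b := h2
    have h3' : e = d + a := h3
    change e = a * c
    rw [h1', h3', h2']
    ring

theorem u0N : ∀ φ ∈ U0, ∀ v : ℕ → ℕ, Fm.Sat NN φ v := by
  intro φ hφ v
  simp only [U0, List.mem_cons, List.not_mem_nil, or_false] at hφ
  rcases hφ with rfl | rfl | rfl | rfl | rfl | rfl
  · intro (a : ℕ)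
    rw [Fm.sat_ex]
    refine ⟨a + 1, ?_⟩
    change a < a + 1
    omega
  · intro (a : ℕ) (b : ℕ)
    rw [Fm.sat_ex]
    refine ⟨max a b, ?_⟩
    intro (c : ℕ)
    rw [Fm.sat_imp, Fm.sat_and]
    intro h
    have h' : max a b < c := h
    refine ⟨?_, ?_⟩
    · change a < c
      omega
    · change b < c
      omega
  · intro (a : ℕ) (b : ℕ) h
    rw [Fm.sat_ex]
    refine ⟨b, ?_⟩
    intro (c : ℕ) h1
    rw [Fm.sat_ex]
    refine ⟨b, ?_⟩
    have h1' : b < c := h1
    change b < c ∧ b = b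
    exact ⟨h1', rfl⟩
  · intro (a : ℕ) (b : ℕ) (c : ℕ) (d : ℕ) h1 h2 h3
    have h1' : a < b ∧ d = a := h1
    have h3' : b < c ∧ d = b := h3
    change False
    omega
  · intro (a : ℕ) (b : ℕ) h1 h2
    have h1' : a = 0 := h1
    have h2' : b < a := h2
    change False
    omega
  · intro (a : ℕ) (b : ℕ) (c : ℕ) h1 h2
    rw [Fm.sat_or]
    have h1' : b = a + 1 := h1
    have h2' : c < b := h2
    change c < a ∨ c = a
    omega

theorem teN : ∀ φ ∈ TE, ∀ v : ℕ → ℕ, Fm.Sat NN φ v := by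
  intro φ hφ v
  simp only [TE, List.mem_cons, List.not_mem_nil, or_false] at hφ
  rcases hφ with rfl | rfl | rfl | rfl | rfl
  · intro (a : ℕ) ha
    rw [sat_instN (by norm_num) (by simp [Ef, Fm.Free]) (by simp [Ef, Fm.Free])]
    have ha' : a = 0 := ha
    change Erel a (num hd)
    rw [ha']
    exact erel_zero
  · intro (a : ℕ) (b : ℕ) hab (c : ℕ) hc
    rw [sat_appnN _ (by simp [Ef, Fm.Free]) (by simp [Ef, Fm.Free])]
    have hab' : Erel a b := hab
    have hc' : c = a + 1 := hc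
    change Erel c (2 ^ bs.length * b + num bs)
    rw [hc']
    exact erel_succ hab'
  · intro (a : ℕ) (b : ℕ) hab (c : ℕ) hc
    rw [sat_appnN _ (by simp [Cf, Fm.Free]) (by simp [Cf, Fm.Free])]
    have hab' : Erel a b := hab
    have hc' : c = 0 := hc
    change Crel a c (2 ^ tl.length * b + num tl)
    rw [hc']
    exact crel_zero hab'
  · intro (a : ℕ) (b : ℕ) (c : ℕ) habc (d : ℕ) hd (e : ℕ) he (f : ℕ) hf (g : ℕ) hg
    have h1 : Crel a b c := habc
    have h2 : d = b + b := hd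
    have h3 : e = d + 1 := he
    have h4 : f = c + c := hf
    have h5 : g = f + 1 := hg
    change Crel a e g
    rw [h5, h4, h3, h2]
    exact crel_odd h1
  · intro (a : ℕ) (b : ℕ) (c : ℕ) habc (d : ℕ) hd (e : ℕ) he (e' : ℕ) he' (f : ℕ) hf (g : ℕ) hg (g' : ℕ) hg'
    have h1 : Crel a b c := habc
    have h2 : d = b + b := hd
    have h3 : e = d + 1 := he
    have h3' : e' = e + 1 := he'
    have h4 : f = c + c := hf
    have h5 : g = f + 1 := hg
    have h5' : g' = g + 1 := hg'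
    change Crel a e' g'
    rw [h5', h5, h4, h3', h3, h2]
    exact crel_even h1

/-! ### dyadic numerals in the standard model -/

theorem sat_dnumN {φ : Fml} {x : ℕ} (hx : 2 ≤ x) (h0 : ¬ φ.Free 0) (h1 : ¬ φ.Free 1)
    (n : ℕ) (v : ℕ → ℕ) : Fm.Sat NN (dnum x n φ) v ↔ Fm.Sat NN φ (upd v x n) := by
  rw [sat_dnum qN hx h0 h1, qN_nm]

theorem dg_eq (b : Bool) (a : ℕ) : dg qN b a = num (digits a ++ [b]) := by
  have h := dg_nm qN b a
  rw [qN_nm, qN_nm] at h
  rw [h, num_snoc, num_digits]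

theorem dgs_eq (σ : List Bool) (a : ℕ) : dgs qN σ a = num (digits a ++ σ) := by
  have h := dgs_nm qN σ a
  rw [qN_nm, qN_nm] at h
  exact h

theorem sat_digN {φ : Fml} {x : ℕ} (hx : 2 ≤ x) (h0 : ¬ φ.Free 0) (h1 : ¬ φ.Free 1)
    (b : Bool) (v : ℕ → ℕ) :
    Fm.Sat NN (dig x b φ) v ↔ Fm.Sat NN φ (upd v x (num (digits (v x) ++ [b]))) := by
  rw [sat_dig qN hx h0 h1, dg_eq]

theorem sat_digsN {φ : Fml} {x : ℕ} (hx : 2 ≤ x) (h0 : ¬ φ.Free 0) (h1 : ¬ φ.Free 1)
    (σ : List Bool) (v : ℕ → ℕ) :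
    Fm.Sat NN (σ.foldr (dig x) φ) v ↔ Fm.Sat NN φ (upd v x (num (digits (v x) ++ σ))) := by
  rw [sat_digs qN hx h0 h1, dgs_eq]

theorem num_false (a : ℕ) : num (digits a ++ [false]) = 2 * a + 1 := by
  rw [num_snoc, num_digits]; rfl

theorem num_true (a : ℕ) : num (digits a ++ [true]) = 2 * a + 2 := by
  rw [num_snoc, num_digits]; rfl

/-! ### the axioms on the additional symbols -/

theorem exN : ∀ φ ∈ EX, ∀ v : ℕ → ℕ, Fm.Sat NN φ v := by
  intro φ hφ v
  simp only [EX, List.mem_cons, List.not_mem_nil, or_false] at hφ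
  rcases hφ with rfl | rfl | rfl | rfl | rfl | rfl | rfl | rfl | rfl | rfl | rfl
  · intro (a : ℕ) (b : ℕ) (c : ℕ) h1 h2 h3
    have h1' : a = 0 := h1
    have h2' : b = 0 := h2
    have h3' : c = b + 1 := h3
    change c = b + 2 * a + 1
    omega
  · intro (a : ℕ) (b : ℕ) (c : ℕ) (d : ℕ) (e : ℕ) (f : ℕ) h1 h2 h3 h4
    have h1' : c = b + 2 * a + 1 := h1
    have h2' : d = a + 1 := h2
    have h3' : e = c + 1 := h3
    have h4' : f = e + 1 := h4
    change f = b + 2 * d + 1
    omega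
  · intro (a : ℕ) (b : ℕ) (c : ℕ) (d : ℕ) (e : ℕ) h1 h2 h3
    have h1' : c = b + 2 * a + 1 := h1
    have h2' : d = b + 1 := h2
    have h3' : e = c + 1 := h3
    change e = d + 2 * a + 1
    omega
  · intro (a : ℕ) (b : ℕ) (c : ℕ) h1 h2 (d : ℕ) h3
    have h1' : a = 0 := h1
    have h2' : c = a + 2 * b + 1 := h2
    have h3' : d = b := h3
    rw [sat_digN (by norm_num) (by simp [Fm.Free]) (by simp [Fm.Free])]
    change num (digits d ++ [false]) = c
    rw [num_false]
    omega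
  · intro (a : ℕ) (b : ℕ) (c : ℕ) (f : ℕ) h1 h2 h4 (d : ℕ) h3
    have h1' : a = 0 := h1
    have h2' : c = a + 2 * b + 1 := h2
    have h3' : d = b := h3
    have h4' : f = c + 1 := h4
    rw [sat_digN (by norm_num) (by simp [Fm.Free]) (by simp [Fm.Free])]
    change num (digits d ++ [true]) = f
    rw [num_true]
    omega
  · intro (a : ℕ) (b : ℕ) h1 h2 (c : ℕ) h3
    have h1' : a = 0 := h1
    have h2' : b = a + 1 := h2
    have h3' : c = 0 := h3
    rw [sat_digsN (by norm_num) (by simp [Ew, Fm.Free]) (by simp [Ew, Fm.Free])]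
    change Erl a b (num (digits c ++ pz 3))
    rw [h3', digits_zero, List.nil_append, h2', h1']
    exact ⟨by simp, by norm_num⟩
  · intro (a : ℕ) (b : ℕ) (c : ℕ) (d : ℕ) h1 h2 (w : ℕ) h3
    have h1' : c = a + 1 := h1
    have h2' : d = b + 2 * c + 1 := h2
    have h3' : Erl a b w := h3
    obtain ⟨h4, h5⟩ := h3'
    rw [sat_digsN (by norm_num) (by simp [Ew, Fm.Free]) (by simp [Ew, Fm.Free])]
    change Erl c d (num (digits w ++ pd 3 false))
    refine ⟨?_, ?_⟩
    · rw [h4, digits_num, h1', List.replicate_succ', List.flatten_append, List.append_assoc]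
      simp
    · rw [h2', h1']
      nlinarith
  · intro (a : ℕ) (b : ℕ) (c : ℕ) h1 (w : ℕ) h2
    have h1' : b = c + 1 := h1
    have h2' : Erl a b w := h2
    change Erl a c w
    exact ⟨h2'.1, by have := h2'.2; omega⟩
  · intro (a : ℕ) (b : ℕ) (c : ℕ) (d : ℕ) h1 h2
    have h2' : d = 0 := h2
    change Krl c d c
    rw [h2']
    unfold Krl
    rw [digits_zero, List.append_nil, num_digits]
  · intro (a : ℕ) (b : ℕ) (w : ℕ) h1
    have h1' : Krl a b w := h1
    unfold Krl at h1'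
    rw [sat_digN (by norm_num) (fun h => ?_) (fun h => ?_),
      sat_digN (by norm_num) (by simp [Kw, Fm.Free]) (by simp [Kw, Fm.Free])]
    · change Krl a (num (digits b ++ [false])) (num (digits w ++ [false]))
      unfold Krl
      rw [digits_num, h1', digits_num, List.append_assoc]
    · have := free_dig h; simp [Kw, Fm.Free] at this
    · have := free_dig h; simp [Kw, Fm.Free] at this
  · intro (a : ℕ) (b : ℕ) (w : ℕ) h1
    have h1' : Krl a b w := h1
    unfold Krl at h1'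
    rw [sat_digN (by norm_num) (fun h => ?_) (fun h => ?_),
      sat_digN (by norm_num) (by simp [Kw, Fm.Free]) (by simp [Kw, Fm.Free])]
    · change Krl a (num (digits b ++ [true])) (num (digits w ++ [true]))
      unfold Krl
      rw [digits_num, h1', digits_num, List.append_assoc]
    · have := free_dig h; simp [Kw, Fm.Free] at this
    · have := free_dig h; simp [Kw, Fm.Free] at this

/-! ### the last axiom -/

theorem sat3N {X : Fml} (hX : ∀ x, X.Free x → x = 2 ∨ x = 3 ∨ x = 4) (a b c : ℕ) (v : ℕ → ℕ) :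
    Fm.Sat NN (dnum 2 a (dnum 3 b (dnum 4 c X))) v ↔
      Fm.Sat NN X (upd (upd (upd v 2 a) 3 b) 4 c) := by
  have m0 : ¬ X.Free 0 := fun h => by have := hX 0 h; omega
  have m1 : ¬ X.Free 1 := fun h => by have := hX 1 h; omega
  have n0 : ¬ (dnum 4 c X).Free 0 := fun h => m0 (free_dnum h).2
  have n1 : ¬ (dnum 4 c X).Free 1 := fun h => m1 (free_dnum h).2
  have o0 : ¬ (dnum 3 b (dnum 4 c X)).Free 0 := fun h => n0 (free_dnum h).2
  have o1 : ¬ (dnum 3 b (dnum 4 c X)).Free 1 := fun h => n1 (free_dnum h).2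
  rw [sat_dnumN (by omega) o0 o1, sat_dnumN (by omega) n0 n1, sat_dnumN (by omega) m0 m1]

theorem free_neg {P : Fml} (hP : ∀ x, P.Free x → x = 2 ∨ x = 3 ∨ x = 4) :
    ∀ x, P.neg.Free x → x = 2 ∨ x = 3 ∨ x = 4 := fun x hx => by
  simp only [Fm.neg, Fm.Free, or_false] at hx
  exact hP x hx

theorem XiN {P : Fml} (hP : Num P) {c y : ℕ} (h : ¬ PrRel c y (code [Fm.bot])) {v : ℕ → ℕ}
    (h2 : v 2 = c) (h3 : v 3 = y) : Fm.Sat NN (Xi P) v := by
  obtain ⟨k, hk⟩ := hP.neg c y _ h
  have hs := sat_proves (S := NN) robN hk v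
  rw [sat3N (free_neg hP.free), ← h2, upd_self, ← h3, upd_self] at hs
  unfold Xi
  rw [sat_dnumN (by omega) (fun h => by have := free_neg hP.free 0 h; omega)
    (fun h => by have := free_neg hP.free 1 h; omega)]
  exact hs

theorem GGN {P G : Fml} (hG : NumG P G) {v : ℕ → ℕ} (h : Fm.Sat NN (GG G) v) :
    v 31 = num (tau P (v 29)) := by
  have h1 : Fm.Sat NN G (upd (upd (upd v 2 (v 29)) 3 (v 31)) 4 (v 31)) := h (v 29) rfl (v 31) rfl (v 31) rfl
  by_contra hne
  obtain ⟨k, hk⟩ := hG.neg (v 29) (v 31) (v 31) hne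
  have hs := sat_proves (S := NN) robN hk v
  rw [sat3N (free_neg hG.free)] at hs
  exact hs h1

attribute [local irreducible] zn code tau in
theorem rgsN {P G : Fml} (hP : Num P) (hG : NumG P G)
    (hcon : ∀ m n : ℕ, m ≤ n ^ 2 → ¬ Proves (conAtD P (AA P G) (2 ^ n) :: AA P G) m .bot)
    (v : ℕ → ℕ) : Fm.Sat NN (rgs P G) v := by
  have hfree : ∀ x, (rg P G).Free x → 2 ≤ x := by
    intro x hx
    simp only [rg, GG, Fm.Free, Ew, Kw, XX, Fm.neg, col, lt] at hx
    by_contra hlt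
    have hXi : ∀ x, (Xi P).Free x → x = 2 ∨ x = 3 := fun x hx => free_Xi hP.free hx
    have hGf := hG.free x
    have hXx := hXi x
    have : ¬ (x = 2 ∨ x = 3 ∨ x = 4) := by omega
    have h' : ¬ (x = 2 ∨ x = 3) := by omega
    have e1 : ¬ G.Free x := fun h => this (hGf h)
    have e2 : ¬ (Xi P).Free x := fun h => h' (hXx h)
    simp only [e1, e2, or_false] at hx
    omega
  unfold rgs
  rw [sat_dnumN (by omega) (fun h => by have := hfree 0 h; omega)
    (fun h => by have := hfree 1 h; omega)]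
  intro (t : ℕ) hT (k : ℕ) (x : ℕ) (u : ℕ) hE (w : ℕ) hK _
  have hT' := GGN hG hT
  rw [upd_same, upd_ne _ _ (show (29 : ℕ) ≠ 31 by decide), upd_same] at hT'
  have hE' : Erl k x u := hE
  have hK' : Krl u t w := hK
  obtain ⟨hu, hx⟩ := hE'
  have hw : w = code (conAtD P (AA P G) (2 ^ (k + 1)) :: AA P G) := by
    rw [code_ext]
    unfold Krl at hK'
    rw [hK', hu, hT', digits_num, digits_num]
  refine XiN (c := w) (y := x) hP ?_ ?_ ?_
  · rintro ⟨Γ, φ, e1, e2, e3⟩
    rw [hw] at e1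
    have e1' := code_inj e1
    have e2' := code_inj e2
    have e2'' : Fm.bot = φ := by simpa using e2'
    subst e1' e2''
    exact hcon x (k + 1) hx e3
  · rw [upd_same]
  · rw [upd_ne _ _ (by decide), upd_ne _ _ (by decide), upd_same]

attribute [local irreducible] zn code in
/-- MODULE 7 -/
theorem trueQ : TrueQT := by
  intro P G hP hG hcon φ hφ v
  rcases List.mem_cons.1 hφ with e | hφ
  · rw [e]
    exact rgsN hP hG hcon v
  · rcases List.mem_append.1 hφ with hφ | hφ
    · rcases List.mem_append.1 hφ with hφ | hφ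
      · rcases List.mem_append.1 hφ with hφ | hφ
        · exact robN φ hφ v
        · exact u0N φ hφ v
      · exact teN φ hφ v
    · exact exN φ hφ v

end Pool.Agent.J6H75.MC
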